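import Pool.Agent.H95.MQ.Man
import Pool.Agent.H29.T1.All
import Pool.Agent.H76.PRK.ZINJ

/-!
# MQ: the main theorem over every global function field, from that of PRK, part 8 (helper95)
-/

set_option autoImplicit false

namespace Pool.MQ

open Polynomial Pool.HYP Pool.TOW Pool.AVS Pool.T1 Pool.PRK IsDedekindDomain

/-- The main theorem. -/
def MainMQ : Prop :=
  ∀ (F : Type) [Field F] [Finite F], (2 : F) ≠ 0 → ∀ (K : Type) [Field K]
    [Algebra (RatFunc F) K] [FiniteDimensional (RatFunc F) K] [Algebra.IsSeparable (RatFunc F) K]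
    (O : ValuationSubring K), OnePole F O → ∀ π : K, Unif O π → ∀ g : ℕ, 1 ≤ g →
    LawR2 (RR F K) O π g (HypK F O g)

theorem main_mq (hR : MainRk1) : MainMQ := by
  intro F _ _ h2 K _ _ _ _ O hO π hπ g hg
  obtain ⟨-, hall⟩ := gri F h2 K O hO
  obtain ⟨H, hP⟩ := hall π hπ
  obtain ⟨-, hU, -, hL, -⟩ := gra (RR F K) K O π H
  have hun : ∀ n : ℕ, n ≠ 0 → (n : K) ≠ 0 → IsUnit (n : RR F K) := by
    intro n _ hn
    have h1 : ((n : ℕ) : RR F K) = xR F K (Polynomial.C (n : F)) := by
      rw [map_natCast, map_natCast]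
    have h3 : (n : F) ≠ 0 := by
      intro h4
      apply hn
      have h5 : (n : K) = algebraMap (RR F K) K ((n : ℕ) : RR F K) := by rw [map_natCast]
      rw [h5, h1, h4, map_zero, map_zero, map_zero]
    rw [h1]
    exact ((isUnit_iff_ne_zero.2 h3).map Polynomial.C).map (xR F K)
  have hfinA : ∀ n, (All (RR F K) O π g n).Finite := fun n =>
    (Pool.T1.allk (RR F K) K O π H (fun m => (hU m).1) g n).1
  exact lawR2 zinj H hU hun g hg (fun D h _ => (hfinA h).subset fun f hf => hf.1) _
    (hR F h2 K O hO π hπ g hg)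

end Pool.MQ
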