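import Pool.Agent.H95.MQ.Law

/-!
# MQ: the main statement (helper95)
-/

set_option autoImplicit false

namespace Pool.MQ

open Polynomial Pool.HYP Pool.TOW Pool.AVS Pool.T1 Pool.PRK IsDedekindDomain

section Defs

variable {R : Type} [CommRing R] [IsDedekindDomain R] {K : Type} [Field K] [Algebra R K]
  [IsFractionRing R K]

/-- In the subset `Z` of positive density `c` in `H`, the condition `CubQ` is satisfied for a
proportion of at least `0.2097 - ε`. -/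
def PosQ (m : ℕ) (T : Finset (HeightOneSpectrum R)) (P : HeightOneSpectrum R)
    (d : HeightOneSpectrum R → R) (ε c : ℝ) (Z H : Set K[X]) : Prop :=
  Z ⊆ H ∧ H.Finite ∧ 0 < H.ncard ∧ c * H.ncard ≤ Z.ncard ∧
    (0.2097 - ε) * Z.ncard ≤ {q | q ∈ Z ∧ CubQ m T P d q}.ncard

variable (R) in
/-- The main statement in the abstract setting, for a set `H h` of polynomials. -/
def LawR2 (O : ValuationSubring K) (π : K) (g : ℕ) (H : ℕ → Set K[X]) : Prop :=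
  ∃ A : Finset (HeightOneSpectrum R), ∀ T' : Finset (HeightOneSpectrum R), A ⊆ T' →
    ∀ (m : ℕ) (ε : ℝ), 0 < ε → ∃ k₀ : ℕ, ∀ k : ℕ, Even k → k₀ ≤ k → ∃ b : ℕ,
    (∃ D : Dat R O, D.Ok g ∧ D.T' = T' ∧ D.T.card = k ∧ (∀ P ∈ D.T, b < Nm P) ∧
      (((2 * g + 1 : ℕ) : K) ≠ 0 → Tr0 D g)) ∧
    ∀ D : Dat R O, D.Ok g → D.T' = T' → D.T.card = k → (∀ P ∈ D.T, b < Nm P) →
    (∃ (d : HeightOneSpectrum R → R) (E : ℕ), DP D.T D.T' d ∧
      ∀ S ⊆ D.T, pr d S ∈ Lm R O π (E : ℤ)) ∧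
    ∀ P ∈ D.T, ∀ d : HeightOneSpectrum R → R, DP D.T D.T' d →
    ∀ E : ℕ, (∀ S ⊆ D.T, pr d S ∈ Lm R O π (E : ℤ)) →
    ∃ c : ℝ, 0 < c ∧ ∃ h₀ : ℕ, ∀ h : ℕ, h₀ ≤ h →
      PosQ m D.T P d ε c (ZI K D P (pr d) (FamS π g D h)) (H (h + E)) ∧
      (((2 * g + 1 : ℕ) : K) ≠ 0 → Tr0 D g →
        PosQ m D.T P d ε c (ZI K D P (pr d) {f | f ∈ FamS π g D h ∧ f.coeff (2 * g) = 0})
          {f | f ∈ H (h + E) ∧ f.coeff (2 * g) = 0})

end Defs

section Man

theorem lm_big {R : Type} [CommRing R] [IsDomain R] {K : Type} [Field K] [Algebra R K]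
    {O : ValuationSubring K} {π : K} (hG : GR R O π) (a : R) :
    ∃ m : ℕ, ∀ E : ℕ, m ≤ E → a ∈ Lm R O π (E : ℤ) := by
  by_cases hx : algebraMap R K a = 0
  · refine ⟨0, fun E _ => ?_⟩
    change algebraMap R K a * π ^ (E : ℤ) ∈ O
    rw [hx, zero_mul]
    exact O.zero_mem
  · obtain ⟨n, hn, -⟩ := hG.val _ hx
    refine ⟨(-n).toNat, fun E hE => ?_⟩
    change algebraMap R K a * π ^ (E : ℤ) ∈ O
    have h1 : 0 ≤ n + (E : ℤ) := by omega
    obtain ⟨k, hk⟩ := Int.eq_ofNat_of_zero_le h1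
    have h2 : algebraMap R K a * π ^ (E : ℤ) = algebraMap R K a / π ^ n * π ^ k := by
      have h3 : π ^ (E : ℤ) = (π ^ n)⁻¹ * π ^ k := by
        rw [← zpow_natCast π k, ← hk, zpow_add₀ hG.pi_ne, ← mul_assoc,
          inv_mul_cancel₀ (zpow_ne_zero n hG.pi_ne), one_mul]
      rw [h3]
      ring
    rw [h2]
    exact O.mul_mem _ _ hn (pow_mem hG.pi_mem k)

variable {R : Type} [CommRing R] [IsDedekindDomain R] {K : Type} [Field K] [Algebra R K]
  [IsFractionRing R K] {O : ValuationSubring K} {π : K}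

theorem tws_pr {D : Dat R O} {d : HeightOneSpectrum R → R} (hd : DP D.T D.T' d) :
    Tws D (pr d) := fun S hS => twi_prod hd S hS

theorem exists_dE (H : GR R O π) (D : Dat R O) (h : ∃ dS : Finset (HeightOneSpectrum R) → R,
    Tws D dS) : ∃ (d : HeightOneSpectrum R → R) (E : ℕ), DP D.T D.T' d ∧
      ∀ S ⊆ D.T, pr d S ∈ Lm R O π (E : ℤ) := by
  obtain ⟨dS, hdS⟩ := h
  choose m hm using fun S : Finset (HeightOneSpectrum R) =>
    lm_big H (pr (fun P => dS {P}) S)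
  refine ⟨fun P => dS {P}, D.T.powerset.sup m, fun P hP =>
    hdS {P} (Finset.singleton_subset_iff.2 hP), fun S hS => ?_⟩
  exact hm S _ (Finset.le_sup (Finset.mem_powerset.2 hS))

open Classical in
/-- The main statement follows from that of PRK, part 8. -/
theorem lawR2 (hZ : ZINJStmt) (H : GR R O π) (hU : CntU R O π)
    (hun : ∀ n : ℕ, n ≠ 0 → (n : K) ≠ 0 → IsUnit (n : R)) (g : ℕ) (hg : 1 ≤ g)
    (hfinF : ∀ (D : Dat R O) (h : ℕ), D.Ok g → (Fam π g D h).Finite) (Hs : ℕ → Set K[X])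
    (h1 : LawR1 R O π g Hs) : LawR2 R O π g Hs := by
  obtain ⟨A, hA⟩ := h1
  refine ⟨A, fun T' hT' m ε hε => ?_⟩
  have hε4 : 0 < ε / 4 := by positivity
  obtain ⟨k1, hk1⟩ := hA T' hT' (ε / 4) hε4
  obtain ⟨j0, hj0⟩ := law_step m hε4
  refine ⟨k1 + 2 * j0 + 2, fun k hk hk' => ?_⟩
  obtain ⟨b, hb1, hb2⟩ := hk1 k hk (by omega)
  refine ⟨b, hb1, fun D hD hDT hcard hb => ?_⟩
  obtain ⟨hb3, hb4⟩ := hb2 D hD hDT hcard hb
  refine ⟨exists_dE H D hb3, fun P hP d hd E hE => ?_⟩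
  obtain ⟨c, hc, h0, hh⟩ := hb4 P hP (pr d) (tws_pr hd) E hE
  obtain ⟨j, hj⟩ : ∃ j : ℕ, D.T.card = 2 * j + 2 := by
    obtain ⟨i, hi⟩ := hk
    exact ⟨i - 1, by omega⟩
  -- from one polynomial to the family
  have hstep : ∀ (h : ℕ) (B : Set R[X]) (G : Set K[X]), B ⊆ FamS π g D h →
      ({f | f ∈ B ∧ ¬ LawI K (ε / 4) D P (pr d) f}.ncard : ℝ) ≤ ε / 4 * B.ncard →
      PosI P (ε / 4) c (ZI K D P (pr d) B) G → PosQ m D.T P d ε c (ZI K D P (pr d) B) G := by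
    intro h B G hB hlaw hpos
    obtain ⟨p1, p2, p3, p4, -⟩ := hpos
    refine ⟨p1, p2, p3, p4, ?_⟩
    have hBF : B ⊆ Fam π g D h := fun f hf => (hB hf).1
    have hBf : B.Finite := (hfinF D h hD).subset hBF
    have h5 := fip_gen (K := K) (D := D) (h := h) hZ hg hD hP (tws_pr hd) (ε := ε / 2)
      (by positivity) hBF hBf (CubQ m D.T P d) (by
        have hsub : {f | f ∈ B ∧ ¬ (0.2097 - ε / 2) * ((Sl (D.T.erase P)).card : ℝ) ≤
            {S | S ∈ Sl (D.T.erase P) ∧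
              CubQ m D.T P d (fk K (f.scaleRoots (pr d (insert P S))))}.ncard} ⊆
            {f | f ∈ B ∧ ¬ LawI K (ε / 4) D P (pr d) f} := by
          rintro f ⟨hf1, hf2⟩
          refine ⟨hf1, fun hf3 => hf2 ?_⟩
          have h6 := hj0 R K O D j (by omega) hj P hP d hd f (hBF hf1).1.1 (ε / 4) hf3
          unfold LawQ at h6
          have h7 : ε / 4 + ε / 4 = ε / 2 := by ring
          rw [h7] at h6
          exact h6
        have h8 : ({f | f ∈ B ∧ ¬ (0.2097 - ε / 2) * ((Sl (D.T.erase P)).card : ℝ) ≤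
            {S | S ∈ Sl (D.T.erase P) ∧
              CubQ m D.T P d (fk K (f.scaleRoots (pr d (insert P S))))}.ncard}.ncard : ℝ) ≤
            {f | f ∈ B ∧ ¬ LawI K (ε / 4) D P (pr d) f}.ncard := by
          exact_mod_cast Set.ncard_le_ncard hsub (hBf.subset fun f hf => hf.1)
        refine h8.trans (hlaw.trans ?_)
        exact mul_le_mul_of_nonneg_right (by linarith) (Nat.cast_nonneg _))
    have h9 : (0.2097 - 2 * (ε / 2)) = 0.2097 - ε := by ring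
    rw [h9] at h5
    exact h5
  refine ⟨c, hc, h0, fun h hh0 => ?_⟩
  obtain ⟨q1, q2, q3⟩ := hh h hh0
  refine ⟨hstep h _ _ (fun f hf => hf) q2 q1, fun hN hTr => ?_⟩
  have q4 := q3 hN hTr
  refine hstep h _ _ (fun f hf => hf.1) ?_ q4
  obtain ⟨n, hn0, -, hn1, hn2⟩ := shai R K O π H hU g D hTr (hun _ (by omega) hN) h
  rw [hn2 (ε / 4) P (pr d), hn1] at q2
  have hn : (0 : ℝ) < n := by exact_mod_cast hn0
  push_cast at q2
  have q5 : (n : ℝ) * ({f | (f ∈ FamS π g D h ∧ f.coeff (2 * g) = 0) ∧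
      ¬ LawI K (ε / 4) D P (pr d) f}.ncard : ℝ) ≤
      n * (ε / 4 * ({f | f ∈ FamS π g D h ∧ f.coeff (2 * g) = 0}.ncard : ℝ)) := by
    refine q2.trans (le_of_eq ?_)
    ring
  exact le_of_mul_le_mul_left q5 hn

end Man

end Pool.MQ
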