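import Mathlib

/-!
# Cubes in dense families of sets of a given size (helper95)
-/

set_option autoImplicit false

namespace Pool.MQ

open Finset

section Step

variable {α : Type} [DecidableEq α]

/-- The sets `Q` such that `Q + a` and `Q + b` are in `A`. -/
def lk (A : Finset (Finset α)) (X : Finset α) (l : ℕ) (a b : α) : Finset (Finset α) :=
  (((X.erase a).erase b).powersetCard l).filter fun Q => insert a Q ∈ A ∧ insert b Q ∈ A

/-- The elements `x` such that `Q + x` is in `A`. -/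
def nb (A : Finset (Finset α)) (X Q : Finset α) : Finset α :=
  (X \ Q).filter fun x => insert x Q ∈ A

theorem sum_nb (X : Finset α) (l : ℕ) (A : Finset (Finset α))
    (hA : A ⊆ X.powersetCard (l + 1)) :
    ∑ Q ∈ X.powersetCard l, (nb A X Q).card = (l + 1) * A.card := by
  have h1 : ∑ Q ∈ X.powersetCard l, (nb A X Q).card =
      ∑ Q ∈ X.powersetCard l, (bipartiteAbove (fun (Q : Finset α) (p : Finset α × α) =>
        p.2 ∈ p.1 ∧ p.1.erase p.2 = Q) (A ×ˢ X) Q).card := by
    refine sum_congr rfl fun Q hQ => ?_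
    rw [mem_powersetCard] at hQ
    refine card_bij' (fun x _ => ((insert x Q, x) : Finset α × α)) (fun p _ => p.2) ?_ ?_ ?_ ?_
    · intro x hx
      simp only [nb, mem_filter, mem_sdiff] at hx
      simp only [bipartiteAbove, mem_filter, mem_product]
      exact ⟨⟨hx.2, hx.1.1⟩, mem_insert_self _ _, erase_insert hx.1.2⟩
    · intro p hp
      simp only [bipartiteAbove, mem_filter, mem_product] at hp
      obtain ⟨⟨h1, h2⟩, h3, h4⟩ := hp
      simp only [nb, mem_filter, mem_sdiff]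
      refine ⟨⟨h2, ?_⟩, ?_⟩
      · rw [← h4]
        exact notMem_erase _ _
      · rw [← h4, insert_erase h3]
        exact h1
    · intro x hx
      rfl
    · intro p hp
      simp only [bipartiteAbove, mem_filter, mem_product] at hp
      obtain ⟨⟨h1, h2⟩, h3, h4⟩ := hp
      refine Prod.ext ?_ rfl
      change insert p.2 Q = p.1
      rw [← h4, insert_erase h3]
  rw [h1, sum_card_bipartiteAbove_eq_sum_card_bipartiteBelow]
  have h2 : ∀ p ∈ A ×ˢ X, (bipartiteBelow (fun (Q : Finset α) (p : Finset α × α) =>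
      p.2 ∈ p.1 ∧ p.1.erase p.2 = Q) (X.powersetCard l) p).card =
      if p.2 ∈ p.1 then 1 else 0 := by
    intro p hp
    rw [mem_product] at hp
    have h3 := mem_powersetCard.1 (hA hp.1)
    split_ifs with h
    · rw [card_eq_one]
      refine ⟨p.1.erase p.2, ?_⟩
      ext Q
      simp only [bipartiteBelow, mem_filter, mem_singleton, mem_powersetCard]
      constructor
      · rintro ⟨-, -, h5⟩
        exact h5.symm
      · rintro rfl
        refine ⟨⟨(erase_subset _ _).trans h3.1, ?_⟩, h, rfl⟩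
        rw [card_erase_of_mem h, h3.2]
        rfl
    · rw [card_eq_zero]
      ext Q
      simp only [bipartiteBelow, mem_filter, notMem_empty, iff_false]
      rintro ⟨-, h5, -⟩
      exact h h5
  rw [sum_congr rfl h2, sum_product]
  have h4 : ∀ S ∈ A, ∑ x ∈ X, (if x ∈ S then 1 else 0) = l + 1 := by
    intro S hS
    have h3 := mem_powersetCard.1 (hA hS)
    rw [← sum_filter, sum_const, smul_eq_mul, mul_one, filter_mem_eq_inter,
      inter_eq_right.2 h3.1, h3.2]
  rw [sum_congr rfl h4, sum_const, smul_eq_mul, mul_comm]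

theorem sum_lk (X : Finset α) (l : ℕ) (A : Finset (Finset α)) :
    ∑ Q ∈ X.powersetCard l, (nb A X Q).offDiag.card =
      ∑ p ∈ X.offDiag, (lk A X l p.1 p.2).card := by
  have h1 : ∀ Q ∈ X.powersetCard l, (nb A X Q).offDiag.card =
      (bipartiteAbove (fun (Q : Finset α) (p : α × α) => p.1 ∉ Q ∧ p.2 ∉ Q ∧
        insert p.1 Q ∈ A ∧ insert p.2 Q ∈ A) X.offDiag Q).card := by
    intro Q _
    congr 1
    ext p
    simp only [mem_offDiag, nb, mem_filter, mem_sdiff, bipartiteAbove]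
    tauto
  have h2 : ∀ p ∈ X.offDiag, (lk A X l p.1 p.2).card =
      (bipartiteBelow (fun (Q : Finset α) (p : α × α) => p.1 ∉ Q ∧ p.2 ∉ Q ∧
        insert p.1 Q ∈ A ∧ insert p.2 Q ∈ A) (X.powersetCard l) p).card := by
    intro p _
    congr 1
    ext Q
    simp only [lk, mem_filter, mem_powersetCard, bipartiteBelow, subset_iff, mem_erase]
    constructor
    · rintro ⟨⟨h3, h4⟩, h5, h6⟩
      exact ⟨⟨fun x hx => (h3 hx).2.2, h4⟩, fun h => (h3 h).2.1 rfl, fun h => (h3 h).1 rfl, h5, h6⟩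
    · rintro ⟨⟨h3, h4⟩, h5, h6, h7, h8⟩
      refine ⟨⟨fun x hx => ⟨?_, ?_, h3 hx⟩, h4⟩, h7, h8⟩
      · rintro rfl
        exact h6 hx
      · rintro rfl
        exact h5 hx
  rw [sum_congr rfl h1, sum_congr rfl h2, sum_card_bipartiteAbove_eq_sum_card_bipartiteBelow]

omit [DecidableEq α] in
theorem num {B M δ s : ℝ} (hB : 0 < B) (hM : 0 < M) (hδ : 0 < δ) (hs : δ * M * B ≤ s)
    (h2 : 2 ≤ δ * M) (h : s * s ≤ B * (s + δ ^ 2 / 2 * (B * (M * (M - 1))))) : False := by
  obtain ⟨x, rfl⟩ : ∃ x, s = x * B := ⟨s / B, by rw [div_mul_cancel₀ _ hB.ne']⟩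
  have hx : δ * M ≤ x := le_of_mul_le_mul_right hs hB
  have hBB : 0 < B * B := mul_pos hB hB
  have h3 : (B * B) * (x * x) ≤ (B * B) * (x + δ ^ 2 / 2 * (M * (M - 1))) := by
    calc (B * B) * (x * x) = x * B * (x * B) := by ring
      _ ≤ _ := h
      _ = _ := by ring
  have h4 : x * x ≤ x + δ ^ 2 / 2 * (M * (M - 1)) := le_of_mul_le_mul_left h3 hBB
  have h5 : δ ^ 2 / 2 * (M * (M - 1)) = (δ * M) ^ 2 / 2 - δ * (δ * M) / 2 := by ring
  have h6 : 0 < δ * (δ * M) / 2 := by positivity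
  have h7 : 0 ≤ (x - δ * M) * (x + δ * M - 1) := mul_nonneg (by linarith) (by linarith)
  have h8 : 0 ≤ (δ * M - 2) * (δ * M) := mul_nonneg (by linarith) (by linarith)
  have h9 : (x - δ * M) * (x + δ * M - 1) = x * x - x - (δ * M) ^ 2 + δ * M := by ring
  have h10 : (δ * M - 2) * (δ * M) = (δ * M) ^ 2 - 2 * (δ * M) := by ring
  linarith

theorem step (X : Finset α) (l : ℕ) (A : Finset (Finset α)) (hA : A ⊆ X.powersetCard (l + 1))
    (δ : ℝ) (hδ : 0 < δ) (hd : δ * (X.card.choose (l + 1) : ℝ) ≤ A.card)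
    (hM : 2 ≤ δ * ((X.card : ℝ) - l)) (hl : l + 2 ≤ X.card) :
    ∃ a ∈ X, ∃ b ∈ X, a ≠ b ∧ δ ^ 2 / 2 * ((X.card - 2).choose l : ℝ) ≤ (lk A X l a b).card := by
  by_contra hcon
  push Not at hcon
  set n := X.card with hn
  obtain ⟨k, hk⟩ : ∃ k, n = k + 2 := ⟨n - 2, by omega⟩
  have hB : (0 : ℝ) < (n.choose l : ℝ) := by
    exact_mod_cast Nat.choose_pos (by omega)
  set B : ℝ := (n.choose l : ℝ) with hBdef
  set M : ℝ := (n : ℝ) - l with hMdef
  have hM0 : 0 < M := by
    have : (l : ℝ) + 2 ≤ n := by exact_mod_cast hl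
    linarith
  -- the sum of the degrees
  have h1 := sum_nb X l A hA
  have hs : δ * M * B ≤ ((l : ℝ) + 1) * A.card := by
    have h2 := Nat.choose_succ_right_eq n l
    have h3 : (n.choose (l + 1) : ℝ) * ((l : ℝ) + 1) = B * M := by
      have := congrArg (Nat.cast : ℕ → ℝ) h2
      push_cast [Nat.cast_sub (show l ≤ n by omega)] at this
      exact this
    have h4 : δ * (n.choose (l + 1) : ℝ) * ((l : ℝ) + 1) ≤ (A.card : ℝ) * ((l : ℝ) + 1) :=
      mul_le_mul_of_nonneg_right hd (by positivity)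
    calc δ * M * B = δ * (n.choose (l + 1) : ℝ) * ((l : ℝ) + 1) := by
          rw [mul_assoc δ (n.choose (l + 1) : ℝ), h3]
          ring
      _ ≤ (A.card : ℝ) * ((l : ℝ) + 1) := h4
      _ = _ := by ring
  have h5 : (∑ Q ∈ X.powersetCard l, ((nb A X Q).card : ℝ)) = ((l : ℝ) + 1) * A.card := by
    have := congrArg (Nat.cast : ℕ → ℝ) h1
    push_cast at this
    exact this
  set s : ℝ := ((l : ℝ) + 1) * A.card with hsdef
  have h6 : s ^ 2 ≤ B * ∑ Q ∈ X.powersetCard l, ((nb A X Q).card : ℝ) ^ 2 := by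
    have h7 := sq_sum_le_card_mul_sum_sq (s := X.powersetCard l)
      (f := fun Q => ((nb A X Q).card : ℝ))
    rw [h5, card_powersetCard] at h7
    exact h7
  -- the double counting
  have h8 := sum_lk X l A
  have h9 : (∑ Q ∈ X.powersetCard l, ((nb A X Q).card : ℝ) ^ 2) - s =
      ∑ p ∈ X.offDiag, ((lk A X l p.1 p.2).card : ℝ) := by
    have h10 := congrArg (Nat.cast : ℕ → ℝ) h8
    push_cast at h10
    rw [← h10, ← h5, ← sum_sub_distrib]
    refine sum_congr rfl fun Q _ => ?_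
    rw [offDiag_card, Nat.cast_sub (Nat.le_mul_self _)]
    push_cast
    ring
  have h11 : ∑ p ∈ X.offDiag, ((lk A X l p.1 p.2).card : ℝ) ≤
      ∑ p ∈ X.offDiag, δ ^ 2 / 2 * ((n - 2).choose l : ℝ) := by
    refine sum_le_sum fun p hp => ?_
    rw [mem_offDiag] at hp
    exact (hcon p.1 hp.1 p.2 hp.2.1 hp.2.2).le
  rw [sum_const, offDiag_card, nsmul_eq_mul, ← hn] at h11
  have h12 : ((n * n - n : ℕ) : ℝ) * ((n - 2).choose l : ℝ) = B * (M * (M - 1)) := by
    have e1 := Nat.choose_mul_succ_eq k l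
    have e2 := Nat.choose_mul_succ_eq (k + 1) l
    have e3 : ((k.choose l : ℕ) : ℝ) * ((k : ℝ) + 1) =
        ((k + 1).choose l : ℝ) * ((k : ℝ) + 1 - l) := by
      have := congrArg (Nat.cast : ℕ → ℝ) e1
      push_cast [Nat.cast_sub (show l ≤ k + 1 by omega)] at this
      exact this
    have e4 : (((k + 1).choose l : ℕ) : ℝ) * ((k : ℝ) + 1 + 1) =
        ((k + 2).choose l : ℝ) * ((k : ℝ) + 1 + 1 - l) := by
      have := congrArg (Nat.cast : ℕ → ℝ) e2
      push_cast [Nat.cast_sub (show l ≤ k + 1 + 1 by omega)] at this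
      exact this
    have e5 : ((n * n - n : ℕ) : ℝ) = ((k : ℝ) + 1 + 1) * ((k : ℝ) + 1) := by
      rw [Nat.cast_sub (Nat.le_mul_self _), hk]
      push_cast
      ring
    have e6 : n - 2 = k := by omega
    rw [e5, e6, hBdef, hMdef, hk]
    push_cast
    calc ((k : ℝ) + 1 + 1) * ((k : ℝ) + 1) * (k.choose l : ℝ)
        = ((k : ℝ) + 1 + 1) * ((k.choose l : ℝ) * ((k : ℝ) + 1)) := by ring
      _ = (((k + 1).choose l : ℝ) * ((k : ℝ) + 1 + 1)) * ((k : ℝ) + 1 - l) := by
          rw [e3]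
          ring
      _ = _ := by
          rw [e4]
          ring
  have h13 : ((n * n - n : ℕ) : ℝ) * (δ ^ 2 / 2 * ((n - 2).choose l : ℝ)) =
      δ ^ 2 / 2 * (B * (M * (M - 1))) := by
    rw [← h12]
    ring
  rw [h13, ← h9] at h11
  exact num hB hM0 hδ hs hM (by
    calc s * s = s ^ 2 := by ring
      _ ≤ _ := h6
      _ ≤ _ := mul_le_mul_of_nonneg_left (by linarith) hB.le)

end Step

end Pool.MQ
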