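import Pool.Agent.H95.MQ.Cube
import Pool.Agent.H79.PRK.S6

/-!
# MQ: twists by the elements of a cube (helper95)
-/

set_option autoImplicit false

namespace Pool.MQ

open Polynomial Pool.HYP Pool.TOW Pool.AVS Pool.T1 Pool.PRK IsDedekindDomain

/-- The elements `D i` are independent modulo squares. -/
def Ind {K : Type} [Field K] {n : ℕ} (D : Fin n → K) : Prop :=
  ∀ J : Finset (Fin n), J.Nonempty → ¬ IsSquare (∏ i ∈ J, D i)

/-! ### Valuations -/

section Val

variable {R : Type} [CommRing R] [IsDedekindDomain R] {K : Type} [Field K] [Algebra R K]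
  [IsFractionRing R K]

open WithZero Multiplicative

theorem val_one (P : HeightOneSpectrum R) (d : R) (hd : d ∉ P.asIdeal) :
    P.valuation K (algebraMap R K d) = 1 := by
  rw [HeightOneSpectrum.valuation_of_algebraMap]
  by_contra h
  exact hd ((P.intValuation_lt_one_iff_mem d).1 (lt_of_le_of_ne (P.intValuation_le_one d) h))

theorem val_exp (P : HeightOneSpectrum R) (d : R) (h1 : d ∈ P.asIdeal)
    (h2 : d ∉ P.asIdeal ^ 2) :
    P.valuation K (algebraMap R K d) = WithZero.exp (-1 : ℤ) := by
  rw [HeightOneSpectrum.valuation_of_algebraMap]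
  have h3 : P.intValuation d ≤ WithZero.exp (-1 : ℤ) := by
    have := (P.intValuation_le_pow_iff_mem d 1).2 (by rwa [pow_one])
    exact_mod_cast this
  refine le_antisymm h3 ?_
  by_contra h4
  rw [not_le] at h4
  apply h2
  rw [← P.intValuation_le_pow_iff_mem]
  have h0 : P.intValuation d ≠ 0 := by
    apply P.intValuation_ne_zero
    rintro rfl
    exact h2 (Ideal.zero_mem _)
  obtain ⟨n, hn⟩ : ∃ n : ℤ, P.intValuation d = WithZero.exp n :=
    ⟨WithZero.log (P.intValuation d), (WithZero.exp_log h0).symm⟩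
  rw [hn] at h4 ⊢
  rw [WithZero.exp_lt_exp] at h4
  rw [WithZero.exp_le_exp]
  push_cast
  omega

/-- The data for the twists: `d P` is exactly divisible by `P` and prime to the other elements of
`T`. -/
def DP (T T' : Finset (HeightOneSpectrum R)) (d : HeightOneSpectrum R → R) : Prop :=
  ∀ P ∈ T, Twi T T' {P} (d P)

theorem dp_ne {T T' : Finset (HeightOneSpectrum R)} {d : HeightOneSpectrum R → R}
    (h : DP T T' d) {P : HeightOneSpectrum R} (hP : P ∈ T) :
    algebraMap R K (d P) ≠ 0 := by
  intro h0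
  rw [FaithfulSMul.algebraMap_eq_zero_iff] at h0
  exact (h P hP).1 h0

theorem dp_val_self {T T' : Finset (HeightOneSpectrum R)} {d : HeightOneSpectrum R → R}
    (h : DP T T' d) {P : HeightOneSpectrum R} (hP : P ∈ T) :
    P.valuation K (algebraMap R K (d P)) = WithZero.exp (-1 : ℤ) := by
  obtain ⟨-, h1, -, -⟩ := h P hP
  have := h1 P (Finset.mem_singleton_self P)
  exact val_exp P _ this.1 this.2

theorem dp_val_ne {T T' : Finset (HeightOneSpectrum R)} {d : HeightOneSpectrum R → R}
    (h : DP T T' d) {P Q : HeightOneSpectrum R} (hP : P ∈ T) (hQ : Q ∈ T) (hPQ : Q ≠ P) :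
    P.valuation K (algebraMap R K (d Q)) = 1 := by
  obtain ⟨-, -, h1, -⟩ := h Q hQ
  exact val_one P _ (h1 P hP (by rw [Finset.mem_singleton]; exact fun e => hPQ e.symm))

/-- An element with odd order is not a square. -/
theorem not_sq (P : HeightOneSpectrum R) (x : K) (e : ℤ) (he : Odd e)
    (h : P.valuation K x = WithZero.exp e) : ¬ IsSquare x := by
  rintro ⟨y, rfl⟩
  rw [map_mul] at h
  have h0 : P.valuation K y ≠ 0 := by
    intro h0
    rw [h0, zero_mul] at h
    exact WithZero.exp_ne_zero h.symm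
  obtain ⟨n, hn⟩ : ∃ n : ℤ, P.valuation K y = WithZero.exp n :=
    ⟨WithZero.log (P.valuation K y), (WithZero.exp_log h0).symm⟩
  rw [hn, ← WithZero.exp_add, WithZero.exp_inj] at h
  obtain ⟨k, hk⟩ := he
  omega

/-- The products of the `d P` may be used for the twists. -/
theorem twi_prod {T T' : Finset (HeightOneSpectrum R)} {d : HeightOneSpectrum R → R}
    (hd : DP T T' d) (S : Finset (HeightOneSpectrum R)) (hS : S ⊆ T) :
    Twi T T' S (∏ P ∈ S, d P) := by
  classical
  have hout : ∀ P : HeightOneSpectrum R, (∀ Q ∈ S, d Q ∉ P.asIdeal) →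
      (∏ Q ∈ S, d Q) ∉ P.asIdeal := by
    intro P h hm
    obtain ⟨Q, hQ, hQm⟩ := (P.isPrime.prod_mem_iff).1 hm
    exact h Q hQ hQm
  refine ⟨Finset.prod_ne_zero_iff.2 fun P hP => (hd P (hS hP)).1, ?_, ?_, ?_⟩
  · intro P hP
    have h1 := (hd P (hS hP)).2.1 P (Finset.mem_singleton_self P)
    rw [← Finset.mul_prod_erase S d hP]
    refine ⟨Ideal.mul_mem_right _ _ h1.1, fun hm => ?_⟩
    have h2 : (∏ Q ∈ S.erase P, d Q) ∉ P.asIdeal := by
      intro h3
      obtain ⟨Q, hQ, hQm⟩ := (P.isPrime.prod_mem_iff).1 h3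
      rw [Finset.mem_erase] at hQ
      exact (hd Q (hS hQ.2)).2.2.1 P (hS hP) (by
        rw [Finset.mem_singleton]
        exact fun e => hQ.1 e.symm) hQm
    have h3 : P.valuation (FractionRing R) (algebraMap R (FractionRing R)
        (d P * ∏ Q ∈ S.erase P, d Q)) = WithZero.exp (-1 : ℤ) := by
      rw [map_mul, map_mul, val_exp P _ h1.1 h1.2, val_one P _ h2, mul_one]
    rw [HeightOneSpectrum.valuation_of_algebraMap] at h3
    rw [← P.intValuation_le_pow_iff_mem, h3, WithZero.exp_le_exp] at hm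
    norm_num at hm
  · intro P hP hPS
    apply hout
    intro Q hQ
    exact (hd Q (hS hQ)).2.2.1 P hP (by
      rw [Finset.mem_singleton]
      rintro rfl
      exact hPS hQ)
  · intro P hP hP'
    apply hout
    intro Q hQ
    exact (hd Q (hS hQ)).2.2.2 P hP hP'

end Val

/-! ### The cube of twists -/

section Cub

variable {R : Type} [CommRing R] [IsDedekindDomain R] {K : Type} [Field K] [Algebra R K]
  [IsFractionRing R K]

/-- The elements `1 / d P₀`, `d (b i) / d (a i)`. -/
noncomputable def tup (K : Type) [Field K] [Algebra R K] {m : ℕ} (d : HeightOneSpectrum R → R)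
    (P₀ : HeightOneSpectrum R) (a b : Fin m → HeightOneSpectrum R) : Fin (m + 1) → K :=
  Fin.cons (algebraMap R K (d P₀))⁻¹
    fun i => algebraMap R K (d (b i)) / algebraMap R K (d (a i))

open Classical in
/-- The choice of the `b i`, `i ∈ I`, and of the `a i`, `i ∉ I`. -/
noncomputable def ch {m : ℕ} (a b : Fin m → HeightOneSpectrum R) (I : Finset (Fin m)) :
    Fin m → HeightOneSpectrum R := fun i => if i ∈ I then b i else a i

open Classical in
theorem ind_tup {T T' : Finset (HeightOneSpectrum R)} {d : HeightOneSpectrum R → R}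
    (hd : DP T T' d) {P₀ : HeightOneSpectrum R} (hP₀ : P₀ ∈ T) {l m : ℕ}
    {A : Finset (Finset (HeightOneSpectrum R))} {Q : Finset (HeightOneSpectrum R)}
    {a b : Fin m → HeightOneSpectrum R} (hC : Cube (T.erase P₀) l m A Q a b) :
    Ind (tup K d P₀ a b) := by
  intro J hJ
  have haT : ∀ i, a i ∈ T ∧ a i ≠ P₀ := fun i => by
    have := Finset.mem_erase.1 (hC.amem i).1
    exact ⟨this.2, this.1⟩
  have hbT : ∀ i, b i ∈ T ∧ b i ≠ P₀ := fun i => by
    have := Finset.mem_erase.1 (hC.bmem i).1
    exact ⟨this.2, this.1⟩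
  by_cases h : ∃ i : Fin m, i.succ ∈ J
  · obtain ⟨i, hi⟩ := h
    apply not_sq (b i) _ (-1) (by decide)
    rw [map_prod, ← Finset.mul_prod_erase J _ hi]
    have h1 : (b i).valuation K (tup K d P₀ a b i.succ) = WithZero.exp (-1 : ℤ) := by
      rw [tup, Fin.cons_succ, map_div₀, dp_val_self hd (hbT i).1,
        dp_val_ne hd (hbT i).1 (haT i).1 (hC.ab i i), div_one]
    rw [h1, Finset.prod_eq_one, mul_one]
    intro k hk
    rw [Finset.mem_erase] at hk
    obtain ⟨hk, -⟩ := hk
    revert hk
    refine Fin.cases (fun _ => ?_) (fun k hk => ?_) k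
    · rw [tup, Fin.cons_zero, map_inv₀, dp_val_ne hd (hbT i).1 hP₀ (hbT i).2.symm, inv_one]
    · rw [tup, Fin.cons_succ, map_div₀,
        dp_val_ne hd (hbT i).1 (hbT k).1 (fun e => hk (by rw [hC.binj e])),
        dp_val_ne hd (hbT i).1 (haT k).1 (hC.ab k i), div_one]
  · have hJ0 : J = {0} := by
      ext k
      rw [Finset.mem_singleton]
      constructor
      · intro hk
        by_contra h0
        obtain ⟨i, rfl⟩ := Fin.exists_succ_eq.2 h0
        exact h ⟨i, hk⟩
      · rintro rfl
        obtain ⟨k, hk⟩ := hJ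
        by_cases h0 : k = 0
        · rwa [h0] at hk
        · obtain ⟨i, rfl⟩ := Fin.exists_succ_eq.2 h0
          exact absurd ⟨i, hk⟩ h
    rw [hJ0, Finset.prod_singleton]
    apply not_sq P₀ _ 1 (by decide)
    rw [tup, Fin.cons_zero, map_inv₀, dp_val_self hd hP₀, ← WithZero.exp_neg, neg_neg]

open Classical in
/-- The product over a vertex of the cube. -/
theorem prod_ch {T T' : Finset (HeightOneSpectrum R)} {d : HeightOneSpectrum R → R}
    (hd : DP T T' d) {P₀ : HeightOneSpectrum R} {l m : ℕ}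
    {A : Finset (Finset (HeightOneSpectrum R))} {Q : Finset (HeightOneSpectrum R)}
    {a b : Fin m → HeightOneSpectrum R} (hC : Cube (T.erase P₀) l m A Q a b)
    (I : Finset (Fin m)) :
    algebraMap R K (∏ P ∈ Q ∪ Finset.univ.image a, d P) *
      ∏ i ∈ I, (algebraMap R K (d (b i)) / algebraMap R K (d (a i))) =
      algebraMap R K (∏ P ∈ Q ∪ Finset.univ.image (ch a b I), d P) := by
  have haT : ∀ i, a i ∈ T := fun i => (Finset.mem_erase.1 (hC.amem i).1).2
  have hchinj : Function.Injective (ch a b I) := by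
    intro i k hik
    unfold ch at hik
    split_ifs at hik
    · exact hC.binj hik
    · exact absurd hik.symm (hC.ab k i)
    · exact absurd hik (hC.ab i k)
    · exact hC.ainj hik
  have hdis : ∀ c : Fin m → HeightOneSpectrum R, (∀ i, c i = a i ∨ c i = b i) →
      Disjoint Q (Finset.univ.image c) := by
    intro c hc
    rw [Finset.disjoint_left]
    intro P hP hP'
    obtain ⟨i, -, rfl⟩ := Finset.mem_image.1 hP'
    rcases hc i with h | h
    · exact (hC.amem i).2 (h ▸ hP)
    · exact (hC.bmem i).2 (h ▸ hP)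
  have h1 : ∀ c : Fin m → HeightOneSpectrum R, (∀ i, c i = a i ∨ c i = b i) →
      Function.Injective c →
      algebraMap R K (∏ P ∈ Q ∪ Finset.univ.image c, d P) =
      algebraMap R K (∏ P ∈ Q, d P) * ∏ i, algebraMap R K (d (c i)) := by
    intro c hc hi
    rw [Finset.prod_union (hdis c hc), Finset.prod_image (fun i _ k _ h => hi h), map_mul,
      map_prod]
    congr 1
    rw [map_prod]
  rw [h1 a (fun i => Or.inl rfl) hC.ainj, h1 (ch a b I) (fun i => by
    unfold ch
    split_ifs
    · exact Or.inr rfl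
    · exact Or.inl rfl) hchinj, mul_assoc]
  congr 1
  have h2 : ∏ i ∈ I, (algebraMap R K (d (b i)) / algebraMap R K (d (a i))) =
      ∏ i, (if i ∈ I then algebraMap R K (d (b i)) / algebraMap R K (d (a i)) else 1) := by
    rw [Finset.prod_ite_mem, Finset.univ_inter]
  rw [h2, ← Finset.prod_mul_distrib]
  refine Finset.prod_congr rfl fun i _ => ?_
  unfold ch
  split_ifs with h
  · rw [mul_div_cancel₀ _ (dp_ne hd (haT i))]
  · rw [mul_one]

end Cub

end Pool.MQ
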