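import Pool.Agent.H95.MQ.Comb

/-!
# Cubes in dense families of sets of a given size (helper95), part 2
-/

set_option autoImplicit false

namespace Pool.MQ

open Finset

/-- The sets `R + c 0 + ... + c (m - 1)`, where `c i` is `a i` or `b i`, are in `A`. -/
structure Cube {α : Type} [DecidableEq α] (X : Finset α) (l m : ℕ) (A : Finset (Finset α))
    (R : Finset α) (a b : Fin m → α) : Prop where
  sub : R ⊆ X
  card : R.card = l
  amem : ∀ i, a i ∈ X ∧ a i ∉ R
  bmem : ∀ i, b i ∈ X ∧ b i ∉ R
  ainj : Function.Injective a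
  binj : Function.Injective b
  ab : ∀ i j, a i ≠ b j
  mem : ∀ c : Fin m → α, (∀ i, c i = a i ∨ c i = b i) → R ∪ univ.image c ∈ A

theorem exists_cube (m : ℕ) : ∀ δ : ℝ, 0 < δ → ∃ M₀ : ℕ, ∀ (α : Type) [DecidableEq α]
    (X : Finset α) (l : ℕ) (A : Finset (Finset α)), A ⊆ X.powersetCard (l + m) →
    δ * (X.card.choose (l + m) : ℝ) ≤ A.card → l + m + M₀ ≤ X.card →
    ∃ (R : Finset α) (a b : Fin m → α), Cube X l m A R a b := by
  induction m with
  | zero =>
    intro δ hδ
    refine ⟨0, fun α _ X l A hA hd hM => ?_⟩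
    have h1 : (0 : ℝ) < A.card := by
      refine lt_of_lt_of_le ?_ hd
      have : (0 : ℝ) < (X.card.choose (l + 0) : ℝ) := by
        exact_mod_cast Nat.choose_pos (by omega)
      positivity
    obtain ⟨R, hR⟩ := card_pos.1 (by exact_mod_cast h1 : 0 < A.card)
    have h2 := mem_powersetCard.1 (hA hR)
    refine ⟨R, fun i => i.elim0, fun i => i.elim0, h2.1, h2.2, fun i => i.elim0,
      fun i => i.elim0, fun i => i.elim0, fun i => i.elim0, fun i => i.elim0, fun c _ => ?_⟩
    have h3 : (univ : Finset (Fin 0)).image c = ∅ := by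
      rw [image_eq_empty]
      rfl
    rw [h3, union_empty]
    exact hR
  | succ m ih =>
    intro δ hδ
    obtain ⟨M₁, hM₁⟩ := ih (δ ^ 2 / 2) (by positivity)
    obtain ⟨M₂, hM₂⟩ := exists_nat_ge (2 / δ)
    refine ⟨M₁ + M₂ + 2, fun α _ X l A hA hd hM => ?_⟩
    obtain ⟨a, ha, b, hb, hab, hlk⟩ := step X (l + m) A hA δ hδ hd (by
      rw [div_le_iff₀' hδ] at hM₂
      refine hM₂.trans (mul_le_mul_of_nonneg_left ?_ hδ.le)
      have h3 : l + m + M₂ ≤ X.card := by omega
      have h4 : ((l + m : ℕ) : ℝ) + M₂ ≤ X.card := by exact_mod_cast h3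
      linarith) (by omega)
    have hc : ((X.erase a).erase b).card = X.card - 2 := by
      rw [card_erase_of_mem (mem_erase.2 ⟨hab.symm, hb⟩), card_erase_of_mem ha]
      omega
    obtain ⟨R, a', b', hC⟩ := hM₁ α ((X.erase a).erase b) l (lk A X (l + m) a b)
      (filter_subset _ _) (by rw [hc]; exact hlk) (by rw [hc]; omega)
    have hsub : ∀ x ∈ (X.erase a).erase b, x ∈ X ∧ x ≠ a ∧ x ≠ b := by
      intro x hx
      rw [mem_erase, mem_erase] at hx
      exact ⟨hx.2.2, hx.2.1, hx.1⟩
    refine ⟨R, Fin.cons a a', Fin.cons b b', ?_, hC.card, ?_, ?_, ?_, ?_, ?_, ?_⟩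
    · exact fun x hx => (hsub x (hC.sub hx)).1
    · intro i
      refine Fin.cases ?_ (fun i => ?_) i
      · rw [Fin.cons_zero]
        exact ⟨ha, fun h => (hsub a (hC.sub h)).2.1 rfl⟩
      · rw [Fin.cons_succ]
        exact ⟨(hsub _ (hC.amem i).1).1, (hC.amem i).2⟩
    · intro i
      refine Fin.cases ?_ (fun i => ?_) i
      · rw [Fin.cons_zero]
        exact ⟨hb, fun h => (hsub b (hC.sub h)).2.2 rfl⟩
      · rw [Fin.cons_succ]
        exact ⟨(hsub _ (hC.bmem i).1).1, (hC.bmem i).2⟩
    · rw [Fin.cons_injective_iff]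
      refine ⟨?_, hC.ainj⟩
      rintro ⟨i, hi⟩
      exact (hsub _ (hC.amem i).1).2.1 hi
    · rw [Fin.cons_injective_iff]
      refine ⟨?_, hC.binj⟩
      rintro ⟨i, hi⟩
      exact (hsub _ (hC.bmem i).1).2.2 hi
    · intro i j
      refine Fin.cases ?_ (fun i => ?_) i
      · refine Fin.cases ?_ (fun j => ?_) j
        · rw [Fin.cons_zero, Fin.cons_zero]
          exact hab
        · rw [Fin.cons_zero, Fin.cons_succ]
          exact fun h => (hsub _ (hC.bmem j).1).2.1 h.symm
      · refine Fin.cases ?_ (fun j => ?_) j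
        · rw [Fin.cons_zero, Fin.cons_succ]
          exact (hsub _ (hC.amem i).1).2.2
        · rw [Fin.cons_succ, Fin.cons_succ]
          exact hC.ab i j
    · intro c hc'
      have h5 := hC.mem (fun i => c i.succ) (fun i => by
        have := hc' i.succ
        rw [Fin.cons_succ, Fin.cons_succ] at this
        exact this)
      rw [lk, mem_filter] at h5
      have h6 : R ∪ univ.image c = insert (c 0) (R ∪ univ.image (fun i : Fin m => c i.succ)) := by
        ext x
        simp only [mem_union, mem_image, mem_univ, true_and, mem_insert]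
        constructor
        · rintro (h | ⟨i, hi⟩)
          · exact Or.inr (Or.inl h)
          · revert hi
            refine Fin.cases (fun hi => Or.inl hi.symm) (fun i hi => Or.inr (Or.inr ⟨i, hi⟩)) i
        · rintro (h | h | ⟨i, hi⟩)
          · exact Or.inr ⟨0, h.symm⟩
          · exact Or.inl h
          · exact Or.inr ⟨i.succ, hi⟩
      rw [h6]
      have h7 := hc' 0
      rw [Fin.cons_zero, Fin.cons_zero] at h7
      rcases h7 with h7 | h7
      · rw [h7]
        exact h5.2.1
      · rw [h7]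
        exact h5.2.2

end Pool.MQ
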