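import Pool.Agent.H95.MQ.Core
import Pool.Agent.H13.PRK.FIPI
import Pool.Agent.H13.PRK.SHAI

/-!
# MQ: all twists by the elements of a group (helper95)
-/

set_option autoImplicit false

namespace Pool.MQ

open Polynomial Pool.HYP Pool.TOW Pool.AVS Pool.T1 Pool.PRK IsDedekindDomain

section Defs

variable {R : Type} [CommRing R] [IsDedekindDomain R]

/-- The product of the `d Q`, `Q ∈ S`. -/
noncomputable def pr (d : HeightOneSpectrum R → R) (S : Finset (HeightOneSpectrum R)) : R :=
  ∏ Q ∈ S, d Q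

variable {K : Type} [Field K] [Algebra R K] [IsFractionRing R K]

/-- There are elements `D 0 = 1 / d P` and `D (i + 1) = d (b i) / d (a i)`, `i < m`, independent modulo
squares, such that for every product `t` of some of the `D (i + 1)` the Selmer group of the twist by
`t` has exactly two elements, the nontrivial one being nontrivial at `P`, and that of the twist by
`D 0 * t` is trivial. -/
def CubQ (m : ℕ) (T : Finset (HeightOneSpectrum R)) (P : HeightOneSpectrum R)
    (d : HeightOneSpectrum R → R) (q : K[X]) : Prop :=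
  ∃ a b : Fin m → HeightOneSpectrum R, (∀ i, (a i ∈ T ∧ a i ≠ P) ∧ (b i ∈ T ∧ b i ≠ P)) ∧
    Function.Injective a ∧ Function.Injective b ∧ (∀ i j, a i ≠ b j) ∧ Ind (tup K d P a b) ∧
    ∀ I : Finset (Fin m),
      SelTwo P (q.scaleRoots (∏ i ∈ I, tup K d P a b i.succ)) ∧
      (SelG (q.scaleRoots (tup K d P a b 0 * ∏ i ∈ I, tup K d P a b i.succ))).ncard = 1

open Classical in
/-- For at least `0.2097 - ε` of the sets `S` of `j` or `j + 1` elements of `T` without `P`, the
twist by the product of the `d Q`, `Q ∈ insert P S`, satisfies `CubQ`. -/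
def LawQ (K : Type) [Field K] [Algebra R K] [IsFractionRing R K] {O : ValuationSubring K} (m : ℕ)
    (ε : ℝ) (D : Dat R O) (P : HeightOneSpectrum R) (d : HeightOneSpectrum R → R) (f : R[X]) :
    Prop :=
  (0.2097 - ε) * (Sl (D.T.erase P)).card ≤
    {S | S ∈ Sl (D.T.erase P) ∧
      CubQ m D.T P d (fk K (f.scaleRoots (pr d (insert P S))))}.ncard

end Defs

section Vert

variable {R : Type} [CommRing R] [IsDedekindDomain R] {K : Type} [Field K] [Algebra R K]
  [IsFractionRing R K]

theorem fk_scale (f : R[X]) (hf : f.Monic) (s : R) (t : K) (s' : R)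
    (h : algebraMap R K s * t = algebraMap R K s') :
    (fk K (f.scaleRoots s)).scaleRoots t = fk K (f.scaleRoots s') := by
  have h1 : ∀ x : R, fk K (f.scaleRoots x) = (fk K f).scaleRoots (algebraMap R K x) := by
    intro x
    apply map_scaleRoots
    rw [hf.leadingCoeff, map_one]
    exact one_ne_zero
  rw [h1, h1, ← scaleRoots_mul, h]

open Classical in
theorem cub_vert {T T' : Finset (HeightOneSpectrum R)} {d : HeightOneSpectrum R → R}
    (hd : DP T T' d) {P : HeightOneSpectrum R} (hP : P ∈ T) {f : R[X]} (hf : f.Monic) {l m : ℕ}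
    {A : Finset (Finset (HeightOneSpectrum R))}
    (hA : ∀ S ∈ A, (SelG (fk K (f.scaleRoots (pr d S)))).ncard = 1 ∧
      SelTwo P (fk K (f.scaleRoots (pr d (insert P S)))))
    (hAT : ∀ S ∈ A, S ⊆ T.erase P) {Q : Finset (HeightOneSpectrum R)}
    {a b : Fin m → HeightOneSpectrum R} (hC : Cube (T.erase P) l m A Q a b) :
    CubQ m T P d (fk K (f.scaleRoots (pr d (insert P (Q ∪ Finset.univ.image a))))) := by
  have hmema : ∀ i, a i ∈ T ∧ a i ≠ P := fun i => by
    have := Finset.mem_erase.1 (hC.amem i).1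
    exact ⟨this.2, this.1⟩
  have hmemb : ∀ i, b i ∈ T ∧ b i ≠ P := fun i => by
    have := Finset.mem_erase.1 (hC.bmem i).1
    exact ⟨this.2, this.1⟩
  refine ⟨a, b, fun i => ⟨hmema i, hmemb i⟩, hC.ainj, hC.binj, hC.ab, ind_tup hd hP hC,
    fun I => ?_⟩
  have hin : ∀ S ∈ A, algebraMap R K (pr d (insert P S)) =
      algebraMap R K (d P) * algebraMap R K (pr d S) := by
    intro S hS
    have h1 : P ∉ S := fun h => (Finset.mem_erase.1 (hAT S hS h)).1 rfl
    unfold pr
    rw [Finset.prod_insert h1, map_mul]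
  have ha : Q ∪ Finset.univ.image a ∈ A := hC.mem a fun i => Or.inl rfl
  have hc : Q ∪ Finset.univ.image (ch a b I) ∈ A := by
    refine hC.mem _ fun i => ?_
    unfold ch
    split_ifs
    · exact Or.inr rfl
    · exact Or.inl rfl
  have hprod := prod_ch (K := K) hd hC I
  have hcons : (∏ i ∈ I, tup K d P a b i.succ) =
      ∏ i ∈ I, (algebraMap R K (d (b i)) / algebraMap R K (d (a i))) := by
    refine Finset.prod_congr rfl fun i _ => ?_
    rw [tup, Fin.cons_succ]
  have h0 : tup K d P a b 0 = (algebraMap R K (d P))⁻¹ := by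
    rw [tup, Fin.cons_zero]
  have hdP : algebraMap R K (d P) ≠ 0 := dp_ne hd hP
  constructor
  · rw [hcons, fk_scale f hf _ _ (pr d (insert P (Q ∪ Finset.univ.image (ch a b I)))) (by
      rw [hin _ ha, hin _ hc, mul_assoc]
      congr 1)]
    exact (hA _ hc).2
  · rw [hcons, h0, fk_scale f hf _ _ (pr d (Q ∪ Finset.univ.image (ch a b I))) (by
      rw [hin _ ha]
      have e : algebraMap R K (pr d (Q ∪ Finset.univ.image (ch a b I))) =
          algebraMap R K (pr d (Q ∪ Finset.univ.image a)) *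
            ∏ i ∈ I, (algebraMap R K (d (b i)) / algebraMap R K (d (a i))) := hprod.symm
      rw [e]
      field_simp)]
    exact (hA _ hc).1

end Vert

section Law

variable {R : Type} [CommRing R] [IsDedekindDomain R] {K : Type} [Field K] [Algebra R K]
  [IsFractionRing R K] {O : ValuationSubring K} {π : K} {g : ℕ} {D : Dat R O} {h : ℕ}

open Classical in
/-- From `LawI` to `LawQ`. -/
theorem law_step (m : ℕ) {η : ℝ} (hη : 0 < η) : ∃ j₀ : ℕ, ∀ (R : Type) [CommRing R]
    [IsDedekindDomain R] (K : Type) [Field K] [Algebra R K] [IsFractionRing R K]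
    (O : ValuationSubring K) (D : Dat R O) (j : ℕ), j₀ ≤ j → D.T.card = 2 * j + 2 →
    ∀ P ∈ D.T, ∀ d : HeightOneSpectrum R → R, DP D.T D.T' d → ∀ f : R[X], f.Monic →
    ∀ ε : ℝ, LawI K ε D P (pr d) f → LawQ K m (ε + η) D P d f := by
  obtain ⟨M₀, hM₀⟩ := exists_cube m η hη
  refine ⟨M₀ + m, fun R _ _ K _ _ _ O D j hj hcard P hP d hd f hf ε hlaw => ?_⟩
  set T₁ := D.T.erase P with hT₁
  have hc1 : T₁.card = 2 * j + 1 := by
    rw [hT₁, Finset.card_erase_of_mem hP, hcard]
    rfl
  set Gf : Finset (Finset (HeightOneSpectrum R)) := (Sl T₁).filter fun S =>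
    (SelG (fk K (f.scaleRoots (pr d S)))).ncard = 1 ∧
      SelTwo P (fk K (f.scaleRoots (pr d (insert P S)))) with hGf
  set Bd : Finset (Finset (HeightOneSpectrum R)) := Gf.filter fun S =>
    ¬ CubQ m D.T P d (fk K (f.scaleRoots (pr d (insert P S)))) with hBd
  -- the bad sets of one size
  have hlay : ∀ k : ℕ, k = j ∨ k = j + 1 →
      ((Bd.filter fun S => S.card = k).card : ℝ) ≤ η * ((2 * j + 1).choose k : ℝ) := by
    intro k hk
    by_contra hcon
    rw [not_le] at hcon
    obtain ⟨l, rfl⟩ : ∃ l, k = l + m := ⟨k - m, by omega⟩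
    obtain ⟨Q, a, b, hC⟩ := hM₀ (HeightOneSpectrum R) T₁ l (Bd.filter fun S => S.card = l + m) (by
      intro S hS
      rw [Finset.mem_filter] at hS
      rw [Finset.mem_powersetCard]
      refine ⟨?_, hS.2⟩
      have h1 := (Finset.mem_filter.1 (Finset.mem_filter.1 hS.1).1).1
      exact Finset.mem_powerset.1 (Finset.mem_filter.1 h1).1) (by
      rw [hc1]
      exact hcon.le) (by
      rw [hc1]
      omega)
    have h2 := cub_vert (K := K) hd hP hf (A := Bd.filter fun S => S.card = l + m) (by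
      intro S hS
      exact (Finset.mem_filter.1 (Finset.mem_filter.1 (Finset.mem_filter.1 hS).1).1).2) (by
      intro S hS
      have h1 := (Finset.mem_filter.1 (Finset.mem_filter.1 (Finset.mem_filter.1 hS).1).1).1
      exact Finset.mem_powerset.1 (Finset.mem_filter.1 h1).1) hC
    have h3 := hC.mem a fun i => Or.inl rfl
    exact (Finset.mem_filter.1 (Finset.mem_filter.1 h3).1).2 h2
  have hSlmem : ∀ S ∈ Sl T₁, S.card = j ∨ S.card = j + 1 := by
    intro S hS
    have h1 := (Finset.mem_filter.1 hS).2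
    rw [hc1] at h1
    omega
  have hSlc : ((Sl T₁).card : ℝ) = ((2 * j + 1).choose j : ℝ) + ((2 * j + 1).choose (j + 1) : ℝ) := by
    have h1 : Sl T₁ = T₁.powersetCard j ∪ T₁.powersetCard (j + 1) := by
      ext S
      simp only [Sl, Finset.mem_filter, Finset.mem_powerset, Finset.mem_union,
        Finset.mem_powersetCard, hc1]
      have e : (2 * j + 1) / 2 = j := by omega
      rw [e]
      tauto
    rw [h1, Finset.card_union_of_disjoint, Finset.card_powersetCard, Finset.card_powersetCard,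
      hc1]
    · push_cast
      rfl
    · rw [Finset.disjoint_left]
      intro S h2 h3
      rw [Finset.mem_powersetCard] at h2 h3
      omega
  have hBc : (Bd.card : ℝ) ≤ η * (Sl T₁).card := by
    have hBs : ∀ S ∈ Bd, S ∈ Sl T₁ := fun S hS =>
      (Finset.mem_filter.1 (Finset.mem_filter.1 hS).1).1
    have h1 : Bd = (Bd.filter fun S => S.card = j) ∪ Bd.filter fun S => S.card = j + 1 := by
      refine Finset.Subset.antisymm (fun S hS => ?_)
        (Finset.union_subset (Finset.filter_subset _ _) (Finset.filter_subset _ _))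
      rcases hSlmem S (hBs S hS) with h2 | h2
      · exact Finset.mem_union_left _ (Finset.mem_filter.2 ⟨hS, h2⟩)
      · exact Finset.mem_union_right _ (Finset.mem_filter.2 ⟨hS, h2⟩)
    have h2 : (Bd.card : ℝ) ≤ ((Bd.filter fun S => S.card = j).card : ℝ) +
        ((Bd.filter fun S => S.card = j + 1).card : ℝ) := by
      conv_lhs => rw [h1]
      exact_mod_cast Finset.card_union_le _ _
    rw [hSlc, mul_add]
    exact h2.trans (add_le_add (hlay j (Or.inl rfl)) (hlay (j + 1) (Or.inr rfl)))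
  -- the conclusion
  have h4 : (0.2097 - ε) * ((Sl T₁).card : ℝ) ≤ (Gf.card : ℝ) := by
    refine le_trans hlaw ?_
    have h5 : {S | S ∈ Sl T₁ ∧ (SelG (fk K (f.scaleRoots (pr d S)))).ncard = 1 ∧
        SelTwo P (fk K (f.scaleRoots (pr d (insert P S))))} =
        (Gf : Set (Finset (HeightOneSpectrum R))) := by
      ext S
      rw [hGf, Finset.mem_coe, Finset.mem_filter]
      exact Iff.rfl
    rw [h5, Set.ncard_coe_finset]
  unfold LawQ
  have h6 : ((Gf \ Bd).card : ℝ) ≤ {S | S ∈ Sl T₁ ∧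
      CubQ m D.T P d (fk K (f.scaleRoots (pr d (insert P S))))}.ncard := by
    rw [← Set.ncard_coe_finset (Gf \ Bd)]
    have h7 : ((Gf \ Bd : Finset (Finset (HeightOneSpectrum R))) :
        Set (Finset (HeightOneSpectrum R))) ⊆ {S | S ∈ Sl T₁ ∧
      CubQ m D.T P d (fk K (f.scaleRoots (pr d (insert P S))))} := by
      intro S hS
      rw [Finset.mem_coe, Finset.mem_sdiff] at hS
      refine ⟨(Finset.mem_filter.1 hS.1).1, ?_⟩
      by_contra h8
      exact hS.2 (Finset.mem_filter.2 ⟨hS.1, h8⟩)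
    exact_mod_cast Set.ncard_le_ncard h7 ((Finset.finite_toSet (Sl T₁)).subset fun S hS => hS.1)
  have h8 : (Gf.card : ℝ) - Bd.card ≤ ((Gf \ Bd).card : ℝ) := by
    have h9 := Finset.card_sdiff_add_card_eq_card (Finset.filter_subset _ _ : Bd ⊆ Gf)
    have h10 := congrArg (Nat.cast : ℕ → ℝ) h9
    push_cast at h10
    linarith
  nlinarith

open Classical in
/-- From one polynomial to the family, for any property `Φ`. -/
theorem fip_gen (hZ : ZINJStmt) (hg : 1 ≤ g) (hD : D.Ok g) {P : HeightOneSpectrum R}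
    (hP : P ∈ D.T) {dS : Finset (HeightOneSpectrum R) → R} (hdS : Tws D dS) {ε : ℝ}
    (hε : 0 < ε) {A : Set R[X]} (hA : A ⊆ Fam π g D h) (hAf : A.Finite) (Φ : K[X] → Prop)
    (hlaw : ({f | f ∈ A ∧ ¬ (0.2097 - ε) * ((Sl (D.T.erase P)).card : ℝ) ≤
      {S | S ∈ Sl (D.T.erase P) ∧ Φ (fk K (f.scaleRoots (dS (insert P S))))}.ncard}.ncard : ℝ) ≤
      ε * A.ncard) :
    (0.2097 - 2 * ε) * (ZI K D P dS A).ncard ≤
      {q | q ∈ ZI K D P dS A ∧ Φ q}.ncard := by
  obtain ⟨hZf, hZc⟩ := Fipi13.zi_card (K := K) hZ hg hD hP hdS hA hAf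
  rcases le_or_gt (0.2097 - 2 * ε) 0 with hneg | hpos
  · exact (mul_nonpos_of_nonpos_of_nonneg hneg (Nat.cast_nonneg _)).trans (Nat.cast_nonneg _)
  -- the pairs
  set Lw : R[X] → Prop := fun f => (0.2097 - ε) * ((Sl (D.T.erase P)).card : ℝ) ≤
      {S | S ∈ Sl (D.T.erase P) ∧ Φ (fk K (f.scaleRoots (dS (insert P S))))}.ncard with hLw
  set W : Finset (R[X] × Finset (HeightOneSpectrum R)) :=
    (hAf.toFinset ×ˢ Sl (D.T.erase P)).filter fun z => Φ (Fipi13.tws K P dS z) with hW
  have hWs : (W : Set (R[X] × Finset (HeightOneSpectrum R))) ⊆ Fipi13.Prs D P A := by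
    intro z hz
    rw [hW, Finset.mem_coe, Finset.mem_filter, Finset.mem_product, Set.Finite.mem_toFinset] at hz
    exact hz.1
  have h1 : Fipi13.tws K P dS '' (W : Set (R[X] × Finset (HeightOneSpectrum R))) ⊆
      {q | q ∈ ZI K D P dS A ∧ Φ q} := by
    rintro _ ⟨z, hz, rfl⟩
    refine ⟨?_, ?_⟩
    · rw [Fipi13.zi_image]
      exact ⟨z, hWs hz, rfl⟩
    · rw [hW, Finset.mem_coe, Finset.mem_filter] at hz
      exact hz.2
  have h2 : W.card ≤ {q | q ∈ ZI K D P dS A ∧ Φ q}.ncard := by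
    rw [← Set.ncard_coe_finset W, ← ((Fipi13.inj hZ hg hD hP hdS hA).mono hWs).ncard_image]
    exact Set.ncard_le_ncard h1 (hZf.subset fun q hq => hq.1)
  have h3 : W.card = ∑ f ∈ hAf.toFinset,
      ((Sl (D.T.erase P)).filter fun S => Φ (Fipi13.tws K P dS (f, S))).card := by
    rw [hW, Finset.card_filter, Finset.sum_product]
    refine Finset.sum_congr rfl fun f _ => ?_
    rw [Finset.card_filter]
  -- the good polynomials
  set G : Finset R[X] := hAf.toFinset.filter fun f => Lw f with hG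
  have h4 : ∀ f ∈ G, (0.2097 - ε) * ((Sl (D.T.erase P)).card : ℝ) ≤
      (((Sl (D.T.erase P)).filter fun S => Φ (Fipi13.tws K P dS (f, S))).card : ℝ) := by
    intro f hf
    rw [hG, Finset.mem_filter] at hf
    refine le_trans hf.2 ?_
    have h5 : {S | S ∈ Sl (D.T.erase P) ∧ Φ (fk K (f.scaleRoots (dS (insert P S))))} =
        (((Sl (D.T.erase P)).filter fun S => Φ (Fipi13.tws K P dS (f, S)) :
          Finset (Finset (HeightOneSpectrum R))) : Set (Finset (HeightOneSpectrum R))) := by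
      ext S
      rw [Finset.mem_coe, Finset.mem_filter]
      exact Iff.rfl
    rw [h5, Set.ncard_coe_finset]
  have h5 : (G.card : ℝ) * ((0.2097 - ε) * ((Sl (D.T.erase P)).card : ℝ)) ≤ (W.card : ℝ) := by
    rw [h3]
    push_cast
    calc (G.card : ℝ) * ((0.2097 - ε) * ((Sl (D.T.erase P)).card : ℝ)) =
        ∑ f ∈ G, (0.2097 - ε) * ((Sl (D.T.erase P)).card : ℝ) := by
          rw [Finset.sum_const, nsmul_eq_mul]
      _ ≤ ∑ f ∈ G, (((Sl (D.T.erase P)).filter fun S =>
            Φ (Fipi13.tws K P dS (f, S))).card : ℝ) := Finset.sum_le_sum h4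
      _ ≤ _ := Finset.sum_le_sum_of_subset_of_nonneg (Finset.filter_subset _ _)
          fun f _ _ => Nat.cast_nonneg _
  have h6 : (A.ncard : ℝ) * (1 - ε) ≤ (G.card : ℝ) := by
    have h7 : {f | f ∈ A ∧ ¬ Lw f} =
        ((hAf.toFinset.filter fun f => ¬ Lw f : Finset R[X]) : Set R[X]) := by
      ext f
      simp
    have hlaw' : ({f | f ∈ A ∧ ¬ Lw f}.ncard : ℝ) ≤ ε * A.ncard := hlaw
    rw [h7, Set.ncard_coe_finset] at hlaw'
    have h8 := Finset.card_filter_add_card_filter_not (s := hAf.toFinset) (fun f => Lw f)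
    have h9 : A.ncard = hAf.toFinset.card := Set.ncard_eq_toFinset_card A hAf
    have h10 : (G.card : ℝ) + ((hAf.toFinset.filter fun f => ¬ Lw f).card : ℝ) =
        (A.ncard : ℝ) := by
      rw [h9, ← h8]
      push_cast
      rfl
    linarith
  have h7 : (W.card : ℝ) ≤ ({q | q ∈ ZI K D P dS A ∧ Φ q}.ncard : ℝ) := by
    exact_mod_cast h2
  refine le_trans ?_ h7
  refine le_trans ?_ h5
  rw [hZc]
  push_cast
  have hs : (0 : ℝ) ≤ ((Sl (D.T.erase P)).card : ℝ) := Nat.cast_nonneg _
  have ha : (0 : ℝ) ≤ (A.ncard : ℝ) := Nat.cast_nonneg _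
  have h8 : (0.2097 - 2 * ε) ≤ (1 - ε) * (0.2097 - ε) := by nlinarith
  calc (0.2097 - 2 * ε) * (((Sl (D.T.erase P)).card : ℝ) * (A.ncard : ℝ)) ≤
      ((1 - ε) * (0.2097 - ε)) * (((Sl (D.T.erase P)).card : ℝ) * (A.ncard : ℝ)) :=
        mul_le_mul_of_nonneg_right h8 (by positivity)
    _ = ((A.ncard : ℝ) * (1 - ε)) * ((0.2097 - ε) * ((Sl (D.T.erase P)).card : ℝ)) := by ring
    _ ≤ _ := mul_le_mul_of_nonneg_right h6 (mul_nonneg (by linarith) hs)

end Law

end Pool.MQ
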